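import Pool.Agent.H891R2.SI.All
import Pool.Agent.H891R2.MT.T6

set_option autoImplicit false

/-! A zero-one law for unit Jones polynomials in twist families of arbitrary diagrams. -/

namespace Pool.Agent.H891R2.ZO

open Finset LaurentPolynomial Pool.Agent.H891R2.Jones Pool.Agent.H891R2.MT Pool.Agent.H891R2.SI T4b

variable {k : ℕ}

/-- all combinations of the numbers `w e` with coefficients `-1, 0, 1`, not all `0`, are larger than
`M / 2` in absolute value -/
def Spread (M : ℤ) (w : Fin k → ℤ) : Prop :=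
  ∀ a : Fin k → ℤ, (∀ e, |a e| ≤ 1) → a ≠ 0 → M < 2 * |∑ e, a e * w e|

/-- the unit `± A ^ n` -/
def IsPow (f : ℤ[T;T⁻¹]) : Prop := ∃ n : ℤ, f = T n ∨ f = -T n

theorem IsPow.mul {f g : ℤ[T;T⁻¹]} (hf : IsPow f) (hg : IsPow g) : IsPow (f * g) := by
  obtain ⟨n, hn⟩ := hf
  obtain ⟨m, hm⟩ := hg
  refine ⟨n + m, ?_⟩
  rw [T_add]
  rcases hn with rfl | rfl <;> rcases hm with rfl | rfl
  · left; rfl
  · right; ring
  · right; ring
  · left; ring

theorem IsPow.T (n : ℤ) : IsPow (LaurentPolynomial.T n) := ⟨n, Or.inl rfl⟩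

theorem IsPow.sgn (a : ℕ) : IsPow ((-1) ^ a) := by
  rcases neg_one_pow_eq_or ℤ[T;T⁻¹] a with h | h
  · rw [h]; exact ⟨0, Or.inl T_zero.symm⟩
  · rw [h]; exact ⟨0, Or.inr (by rw [T_zero])⟩

theorem IsPow.inv {f : ℤ[T;T⁻¹]} (hf : IsPow f) : ∃ g, IsPow g ∧ g * f = 1 := by
  obtain ⟨n, hn⟩ := hf
  have h : (LaurentPolynomial.T (-n) * LaurentPolynomial.T n : ℤ[T;T⁻¹]) = 1 := by 
    rw [← T_add, neg_add_cancel, T_zero]
  rcases hn with rfl | rfl
  · exact ⟨_, ⟨-n, Or.inl rfl⟩, h⟩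
  · exact ⟨_, ⟨-n, Or.inr rfl⟩, by rw [neg_mul_neg]; exact h⟩

theorem IsPow.SIn {f : ℤ[T;T⁻¹]} (hf : IsPow f) : ∃ n, T4b.SIn f n n := by
  obtain ⟨n, rfl | rfl⟩ := hf
  · exact ⟨n, SIn.T n⟩
  · exact ⟨n, (SIn.T n).neg⟩

/-- reduction modulo `3` at `A = 1` -/
noncomputable def ph : ℤ[T;T⁻¹] →+* ZMod 3 := LaurentPolynomial.eval₂ (Int.castRingHom (ZMod 3)) 1

theorem ph_T (n : ℤ) : ph (T n) = 1 := by
  unfold ph
  rw [LaurentPolynomial.eval₂_T]
  simp

theorem ph_d : ph (-T 2 - T (-2)) = 1 := by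
  rw [map_sub, map_neg, ph_T, ph_T]
  decide

theorem delta_ne : (-T 2 - T (-2) : ℤ[T;T⁻¹]) ≠ 0 := by
  intro h
  have := ph_d
  rw [h, map_zero] at this
  exact absurd this (by decide)

theorem bracket_ne {P : Type} (D : Diagram P) : D.bracket ≠ 0 := by
  intro h
  have h1 := congrArg ph h
  unfold Diagram.bracket at h1
  rw [map_sum, map_zero] at h1
  simp only [map_mul, map_pow, ph_T, ph_d, one_pow, mul_one, Finset.sum_const, Finset.card_univ, 
    Fintype.card_pi, Fintype.card_bool, Finset.prod_const, Fintype.card_fin, nsmul_eq_mul] at h1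
  have h20 : (2 : ZMod 3) ≠ 0 := by decide
  have hF : Fact (Nat.Prime 3) := ⟨Nat.prime_three⟩
  have h2 : ((2 : ZMod 3)) ^ D.crossings.length ≠ 0 := pow_ne_zero _ h20
  apply h2
  exact_mod_cast h1

/-- the cluster of the set `R` -/
noncomputable def cl (O : Sites k) (w : Fin k → ℤ) (R : Finset (Fin k)) : ℤ[T;T⁻¹] := 
  ((-1) ^ (nS w R).natAbs * T (-4 * nS w R)) * SI.Zp O R

theorem unit_pow (w : Fin k → ℤ) (R : Finset (Fin k)) : 
    IsPow ((-1) ^ (nS w R).natAbs * T (-4 * nS w R)) := (IsPow.sgn _).mul (IsPow.T _)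

theorem cl_SIn (O : Sites k) (hO : O.Connected) (w : Fin k → ℤ) (R : Finset (Fin k)) : 
    SIn (cl O w R) (-4 * nS w R - (3 * O.crossings.length + 4 * k)) 
      (-4 * nS w R + (3 * O.crossings.length + 4 * k)) := 
  (((SIn_sgn _).mul (SIn.T _)).mul (SI.S4 O hO R)).mono (by linarith) (by linarith)

theorem Zp_univ (O : Sites k) : SI.Zp O univ = O.cut.std.bracket := by
  unfold SI.Zp Sites.cut
  rw [Finset.compl_univ, Finset.powerset_empty, Finset.sum_singleton]
  simp

theorem zp_eq_zero (O : Sites k) (w : Fin k → ℤ) (R : Finset (Fin k)) (h : cl O w R = 0) : 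
    SI.Zp O R = 0 := by
  obtain ⟨g, -, hg⟩ := (unit_pow w R).inv
  unfold cl at h
  calc SI.Zp O R = g * ((-1) ^ (nS w R).natAbs * T (-4 * nS w R)) * SI.Zp O R := by rw [hg, one_mul]
    _ = g * (((-1) ^ (nS w R).natAbs * T (-4 * nS w R)) * SI.Zp O R) := by ring
    _ = 0 := by rw [h, mul_zero]

theorem spread_sub {M : ℤ} {w : Fin k → ℤ} (hw : Spread M w) {R R' : Finset (Fin k)} (h : R ≠ R') : 
    M < 2 * |nS w R - nS w R'| := by
  have h1 := hw (fun e => (if e ∈ R then 1 else 0) - (if e ∈ R' then 1 else 0)) (fun e => by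
    split_ifs <;> simp) (fun h0 => h (by
      ext e
      have := congrFun h0 e
      simp only [Pi.zero_apply] at this
      by_cases a : e ∈ R <;> by_cases b : e ∈ R' <;> simp [a, b] at this ⊢))
  have h2 : ∑ e, ((if e ∈ R then 1 else 0) - (if e ∈ R' then 1 else 0)) * w e = 
      nS w R - nS w R' := by
    simp only [sub_mul, ite_mul, one_mul, zero_mul, Finset.sum_sub_distrib, nS, 
      Finset.sum_ite_mem, Finset.univ_inter]
  rw [h2] at h1
  exact h1

theorem exists_coeff {f : ℤ[T;T⁻¹]} (h : f ≠ 0) : ∃ j, f.coeff j ≠ 0 := by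
  by_contra hcon
  push Not at hcon
  apply h
  ext j
  exact hcon j

theorem collapse (O : Sites k) (hO : O.Connected) (w : Fin k → ℤ) 
    (hw : Spread (3 * O.crossings.length + 6 * k) w) (lo hi : ℤ) (hs : hi - lo ≤ 4 * k)
    (h : SIn (∑ R, cl O w R) lo hi) (R : Finset (Fin k)) (hR : R ≠ univ) : SI.Zp O R = 0 := by
  apply zp_eq_zero O w R
  by_contra hne
  have hsep : ∀ R R' : Finset (Fin k), R ≠ R' → 
      2 * (3 * O.crossings.length + 4 * k) + 4 * k < 4 * |nS w R - nS w R'| := fun R R' h => by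
    have := spread_sub hw h
    linarith
  have key : ∀ (R : Finset (Fin k)) (j : ℤ), (cl O w R).coeff j ≠ 0 → lo ≤ j ∧ j ≤ hi := by
    intro R j hj
    apply h
    have : (∑ R, cl O w R).coeff j = (cl O w R).coeff j := by
      rw [AddMonoidAlgebra.coeff_sum, Finsupp.finsetSum_apply]
      refine Finset.sum_eq_single R (fun b _ hb => ?_) (fun h => absurd (Finset.mem_univ R) h)
      by_contra hne
      have h1 := cl_SIn O hO w R j hj
      have h2 := cl_SIn O hO w b j hne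
      have h3 := hsep b R hb
      have h4 : |4 * (nS w b - nS w R)| ≤ 2 * (3 * O.crossings.length + 4 * k) := by
        rw [abs_le]
        constructor <;> linarith [h1.1, h1.2, h2.1, h2.2]
      rw [abs_mul] at h4
      norm_num at h4
      have : (0 : ℤ) ≤ k := by positivity
      linarith
    rw [this]
    exact hj
  obtain ⟨j, hj⟩ := exists_coeff hne
  have hne0 : cl O w univ ≠ 0 := fun h0 => by
    have := zp_eq_zero O w univ h0
    rw [Zp_univ] at this
    exact bracket_ne _ this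
  obtain ⟨j0, hj0⟩ := exists_coeff hne0
  have a1 := key R j hj
  have a2 := key univ j0 hj0
  have a3 := cl_SIn O hO w R j hj
  have a4 := cl_SIn O hO w univ j0 hj0
  have h3 := hsep R univ hR
  have h4 : |4 * (nS w R - nS w univ)| ≤ 2 * (3 * O.crossings.length + 4 * k) + 4 * k := by
    rw [abs_le]
    constructor <;> linarith [a1.1, a1.2, a2.1, a2.2, a3.1, a3.2, a4.1, a4.2]
  rw [abs_mul] at h4
  norm_num at h4
  linarith

/-- the expansion if only the cut state counts -/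
theorem expand (O : Sites k) (hk : 0 < k) (h : ∀ R : Finset (Fin k), R ≠ univ → SI.Zp O R = 0) 
    (w : Fin k → ℤ) : (-T 2 - T (-2)) ^ k * (T (- ∑ e, w e) * (O.fill w).std.bracket) = 
      ((-1) ^ (nS w univ).natAbs * T (-4 * nS w univ)) * O.cut.std.bracket := by
  rw [← mul_assoc, SI.S3 O hk w, ← Zp_univ]
  refine Finset.sum_eq_single univ (fun R _ hR => ?_) (fun h => absurd (Finset.mem_univ _) h)
  rw [h R hR, mul_zero]

theorem fPoly_iff {P : Type} (D : Diagram P) : IsPow D.fPoly ↔ IsPow D.bracket := by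
  have hu : IsPow ((if Even D.writhe then 1 else -1) * T (-3 * D.writhe) : ℤ[T;T⁻¹]) := by
    refine IsPow.mul ?_ (IsPow.T _)
    split_ifs
    · exact ⟨0, Or.inl T_zero.symm⟩
    · exact ⟨0, Or.inr (by rw [T_zero])⟩
  unfold Diagram.fPoly
  refine ⟨fun h => ?_, fun h => hu.mul h⟩
  obtain ⟨g, hg, hg1⟩ := hu.inv
  have := hg.mul h
  rwa [← mul_assoc, hg1, one_mul] at this

theorem main (O : Sites k) (hk : 0 < k) (hO : O.Connected) (w : Fin k → ℤ) 
    (hw : Spread (3 * O.crossings.length + 6 * k) w) (D : Diagram (O.P ⊕ Ribbon.Pt w)) 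
    (hD : Orients D (O.fill w)) (hf : IsPow D.fPoly) : 
    (∃ u, IsPow u ∧ O.cut.std.bracket = u * (-T 2 - T (-2)) ^ k) ∧ 
    ∀ (w' : Fin k → ℤ) (D' : Diagram (O.P ⊕ Ribbon.Pt w')), Orients D' (O.fill w') → 
      IsPow D'.fPoly := by
  have hne : ∀ w : Fin k → ℤ, Nonempty (O.P ⊕ Ribbon.Pt w) := fun w => 
    ⟨.inl (O.corner ⟨0, hk⟩ false false)⟩
  rw [fPoly_iff, (have := hne w; MT.T6.bracket_orients D (O.fill w) hD)] at hf
  obtain ⟨n, hn⟩ := hf.SIn
  have h1 : SIn ((-T 2 - T (-2)) ^ k * T (- ∑ e, w e) * (O.fill w).std.bracket) 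
      (-(k * 2) + (- ∑ e, w e) + n) (k * 2 + (- ∑ e, w e) + n) :=
    ((SIn_d.pow k).mul (SIn.T _)).mul hn
  rw [SI.S3 O hk w] at h1
  have hZ := collapse O hO w hw _ _ (by linarith) h1
  have h2 := expand O hk hZ w
  obtain ⟨g, hg, hg1⟩ := (unit_pow w univ).inv
  have hcut : ∃ u, IsPow u ∧ O.cut.std.bracket = u * (-T 2 - T (-2)) ^ k := by
    refine ⟨g * (T (- ∑ e, w e) * (O.fill w).std.bracket), hg.mul ((IsPow.T _).mul hf), ?_⟩
    calc O.cut.std.bracket = g * (((-1) ^ (nS w univ).natAbs * T (-4 * nS w univ)) * 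
          O.cut.std.bracket) := by rw [← mul_assoc, hg1, one_mul]
      _ = _ := by rw [← h2]; ring
  refine ⟨hcut, fun w' D' hD' => ?_⟩
  rw [fPoly_iff, (have := hne w'; MT.T6.bracket_orients D' (O.fill w') hD')]
  obtain ⟨u, hu, hu1⟩ := hcut
  have h3 := expand O hk hZ w'
  rw [hu1] at h3
  have h4 : (-T 2 - T (-2)) ^ k * (T (- ∑ e, w' e) * (O.fill w').std.bracket) = 
      (-T 2 - T (-2)) ^ k * (((-1) ^ (nS w' univ).natAbs * T (-4 * nS w' univ)) * u) := by
    rw [h3]; ring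
  have h5 := mul_left_cancel₀ (pow_ne_zero k delta_ne) h4
  obtain ⟨g', hg', hg1'⟩ := (IsPow.T (- ∑ e, w' e)).inv
  have h6 : (O.fill w').std.bracket = 
      g' * (((-1) ^ (nS w' univ).natAbs * T (-4 * nS w' univ)) * u) := by
    rw [← h5, ← mul_assoc, hg1', one_mul]
  rw [h6]
  exact hg'.mul ((unit_pow w' univ).mul hu)

theorem slice (N : ℕ) (a : Fin k → ℤ) (e0 : Fin k) (ha : a e0 ≠ 0) (v : ℤ) : 
    ((Fintype.piFinset (fun _ : Fin k => Finset.Icc (-(N : ℤ)) N)).filter 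
      (fun w => ∑ e, a e * w e = v)).card ≤ (2 * N + 1) ^ (k - 1) := by
  classical
  have hcard : (Fintype.piFinset (fun _ : {e : Fin k // e ≠ e0} => Finset.Icc (-(N : ℤ)) N)).card = 
      (2 * N + 1) ^ (k - 1) := by
    rw [Fintype.card_piFinset, Finset.prod_const, Finset.card_univ]
    congr 1
    · rw [Int.card_Icc]
      omega
    · rw [Fintype.card_subtype_compl, Fintype.card_fin, Fintype.card_subtype_eq]
  rw [← hcard]
  refine Finset.card_le_card_of_injOn (fun w e => w e.1) (fun w hw => ?_) (fun w hw w' hw' h => ?_)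
  · rw [Finset.mem_coe, Finset.mem_filter, Fintype.mem_piFinset] at hw
    rw [Finset.mem_coe, Fintype.mem_piFinset]
    exact fun e => hw.1 e.1
  · rw [Finset.mem_coe, Finset.mem_filter] at hw hw'
    have hoff : ∀ e, e ≠ e0 → w e = w' e := fun e he => congrFun h ⟨e, he⟩
    have h1 : ∑ e, a e * (w e - w' e) = 0 := by
      simp only [mul_sub, Finset.sum_sub_distrib]
      rw [hw.2, hw'.2, sub_self]
    rw [Finset.sum_eq_single e0 (fun e _ he => by rw [hoff e he]; ring) 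
      (fun h => absurd (Finset.mem_univ _) h)] at h1
    rcases mul_eq_zero.1 h1 with h2 | h2
    · exact absurd h2 ha
    · funext e
      by_cases he : e = e0
      · subst he; linarith
      · exact hoff e he

theorem count_spread (M N : ℕ) : 
    {w : Fin k → ℤ | (∀ e, |w e| ≤ N) ∧ ¬ Spread (M : ℤ) w}.ncard ≤ 
      3 ^ k * (M + 1) * (2 * N + 1) ^ (k - 1) := by
  classical
  set B := Fintype.piFinset (fun _ : Fin k => Finset.Icc (-(N : ℤ)) N)
  set A := (Fintype.piFinset (fun _ : Fin k => Finset.Icc (-1 : ℤ) 1)).filter (fun a => a ≠ 0)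
  set V := Finset.Icc (-((M : ℤ) / 2)) ((M : ℤ) / 2)
  have hsub : {w : Fin k → ℤ | (∀ e, |w e| ≤ N) ∧ ¬ Spread (M : ℤ) w} ⊆ 
      (((A ×ˢ V).biUnion (fun p => B.filter (fun w => ∑ e, p.1 e * w e = p.2)) : 
        Finset (Fin k → ℤ)) : Set (Fin k → ℤ)) := by
    rintro w ⟨hw, hg⟩
    unfold Spread at hg
    push Not at hg
    obtain ⟨a, ha, ha0, hs⟩ := hg
    rw [Finset.mem_coe, Finset.mem_biUnion]
    refine ⟨(a, ∑ e, a e * w e), ?_, ?_⟩
    · rw [Finset.mem_product, Finset.mem_filter, Fintype.mem_piFinset]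
      refine ⟨⟨fun e => ?_, ha0⟩, ?_⟩
      · rw [Finset.mem_Icc]
        exact abs_le.1 (ha e)
      · rw [Finset.mem_Icc]
        apply abs_le.1
        have hs' : |∑ e, a e * w e| ≤ (M : ℤ) / 2 := by omega
        exact hs'
    · rw [Finset.mem_filter, Fintype.mem_piFinset]
      refine ⟨fun e => ?_, rfl⟩
      rw [Finset.mem_Icc]
      exact abs_le.1 (hw e)
  refine (Set.ncard_le_ncard hsub (Finset.finite_toSet _)).trans ?_
  rw [Set.ncard_coe_finset]
  refine (Finset.card_biUnion_le_card_mul _ _ ((2 * N + 1) ^ (k - 1)) (fun p hp => ?_)).trans ?_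
  · rw [Finset.mem_product, Finset.mem_filter] at hp
    obtain ⟨e0, he0⟩ : ∃ e0, p.1 e0 ≠ 0 := by
      by_contra hcon
      push Not at hcon
      exact hp.1.2 (funext hcon)
    exact slice N p.1 e0 he0 p.2
  · refine Nat.mul_le_mul_right _ ?_
    rw [Finset.card_product]
    refine Nat.mul_le_mul ?_ ?_
    · refine (Finset.card_filter_le _ _).trans (le_of_eq ?_)
      rw [Fintype.card_piFinset_const]
      congr 1
    · rw [Int.card_Icc]
      omega

end Pool.Agent.H891R2.ZO
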